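import Pool.Agent.Helper92.UQ.Goals

set_option autoImplicit false

open MvPolynomial TensorProduct

namespace Pool.Agent.Helper38.UQ.DERF

open Pool.Agent.Helper92.UQ

attribute [local instance] FractionRing.liftAlgebra in
lemma etale (R F : Type) [CommRing R] [IsDomain R] [CharZero R] [Field F] [Algebra R F]
    [FaithfulSMul R F] [Algebra.IsAlgebraic R F] : Algebra.FormallyEtale R F := by
  haveI : Algebra.FormallyEtale R (FractionRing R) :=
    Algebra.FormallyEtale.of_isLocalization (nonZeroDivisors R)
  haveI : Algebra.IsAlgebraic (FractionRing R) F :=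
    (IsFractionRing.comap_isAlgebraic_iff (A := R) (K := FractionRing R) (C := F)).1 inferInstance
  haveI : CharZero (FractionRing R) := by
    haveI := IsFractionRing.injective R (FractionRing R)
    exact charZero_of_injective_algebraMap this
  haveI : Algebra.IsSeparable (FractionRing R) F := inferInstance
  haveI : Algebra.FormallyEtale (FractionRing R) F := Algebra.FormallyEtale.of_isSeparable _ _
  exact Algebra.FormallyEtale.comp R (FractionRing R) F

theorem t : Pool.Agent.Helper92.UQ.DERF := by
  intro K _ _ F _ _ ι y b hy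
  letI : Algebra (MvPolynomial ι K) F := (aeval y : MvPolynomial ι K →ₐ[K] F).toRingHom.toAlgebra
  have hmap : ∀ p : MvPolynomial ι K, algebraMap (MvPolynomial ι K) F p = aeval y p := fun p => rfl
  haveI : IsScalarTower K (MvPolynomial ι K) F := by
    apply IsScalarTower.of_algebraMap_eq
    intro x
    rw [hmap, MvPolynomial.algebraMap_eq, aeval_C]
  have hinj : Function.Injective (algebraMap (MvPolynomial ι K) F) := hy.1
  haveI : FaithfulSMul (MvPolynomial ι K) F := (faithfulSMul_iff_algebraMap_injective _ _).2 hinj
  haveI : Algebra.IsAlgebraic (MvPolynomial ι K) F := by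
    haveI := hy.isAlgebraic
    refine Algebra.IsAlgebraic.of_ringHom_of_comp_eq (S := Algebra.adjoin K (Set.range y))
      (B := F) (hy.1.aevalEquiv : MvPolynomial ι K →+* Algebra.adjoin K (Set.range y))
      (RingHom.id F) hy.1.aevalEquiv.surjective Function.injective_id ?_
    ext x
    · simp [hmap]
    · simp [hmap]
  haveI : Algebra.FormallyEtale (MvPolynomial ι K) F := etale _ _
  let d0 : Derivation K (MvPolynomial ι K) F := MvPolynomial.mkDerivation K b
  let l0 : Ω[MvPolynomial ι K⁄K] →ₗ[MvPolynomial ι K] F := d0.liftKaehlerDifferential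
  let l1 : F ⊗[MvPolynomial ι K] Ω[MvPolynomial ι K⁄K] →ₗ[F] F := LinearMap.liftBaseChange F l0
  let e := KaehlerDifferential.tensorKaehlerEquivOfFormallyEtale K (MvPolynomial ι K) F
  let l2 : Ω[F⁄K] →ₗ[F] F := l1 ∘ₗ e.symm.toLinearMap
  refine ⟨l2.compDer (KaehlerDifferential.D K F), fun i => ?_⟩
  have h1 : y i = algebraMap (MvPolynomial ι K) F (X i) := by rw [hmap, aeval_X]
  have h2 : e.symm (KaehlerDifferential.D K F (y i)) =
      1 ⊗ₜ KaehlerDifferential.D K (MvPolynomial ι K) (X i) := by
    rw [h1]
    exact KaehlerDifferential.tensorKaehlerEquivOfFormallyEtale_symm_D_algebraMap K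
      (MvPolynomial ι K) F (X i)
  show l1 (e.symm (KaehlerDifferential.D K F (y i))) = b i
  rw [h2]
  show LinearMap.liftBaseChange F l0 _ = _
  rw [LinearMap.liftBaseChange_tmul, one_smul]
  show d0.liftKaehlerDifferential _ = _
  rw [Derivation.liftKaehlerDifferential_comp_D]
  exact MvPolynomial.mkDerivation_X K b i

end Pool.Agent.Helper38.UQ.DERF
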