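import Pool.Agent.Helper71.UQ.Goals

/-! UQ-BOX: from dyadic scales to all pairs of bounded size. -/

set_option autoImplicit false

namespace Pool.Agent.Helper38.UQ.PkBOX

open Pool.Agent.Helper71.UQ

/-- one third of a power of four -/
theorem exists_third (m : ℕ) : ∃ s : ℤ, 3 * s + 1 = 4 ^ m := by
  induction m with
  | zero => exact ⟨0, by norm_num⟩
  | succ m ih =>
    obtain ⟨s, hs⟩ := ih
    refine ⟨4 * s + 1, ?_⟩
    rw [pow_succ, ← hs]
    ring

/-- the smallest power of two above `3 D + 1` -/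
theorem exists_pow (D : ℤ) (hD : 1 ≤ D) : ∃ J : ℕ, 1 ≤ J ∧ 3 * D + 1 < 2 ^ J ∧
    (2 : ℤ) ^ (J - 1) ≤ 4 * D := by
  classical
  have hex : ∃ J : ℕ, 3 * D + 1 < 2 ^ J := by
    refine ⟨(3 * D + 1).toNat, ?_⟩
    have h1 : ((3 * D + 1).toNat : ℤ) < (2 : ℤ) ^ (3 * D + 1).toNat := by
      exact_mod_cast Nat.lt_two_pow_self
    have h2 : ((3 * D + 1).toNat : ℤ) = 3 * D + 1 := Int.toNat_of_nonneg (by omega)
    omega
  have hJ1 : 1 ≤ Nat.find hex := by
    by_contra hcon
    have h0 : Nat.find hex = 0 := by omega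
    have h1 := Nat.find_spec hex
    rw [h0] at h1
    norm_num at h1
    omega
  refine ⟨Nat.find hex, hJ1, Nat.find_spec hex, ?_⟩
  have h2 := Nat.find_min hex (m := Nat.find hex - 1) (by omega)
  push Not at h2
  omega

/-- the scale of a pair of integers -/
theorem exists_scale (A B : ℤ) (hAB : A < B) (J : ℕ) (hJ : A / 2 ^ J = B / 2 ^ J) :
    ∃ j : ℕ, j + 1 ≤ J ∧ A / 2 ^ (j + 1) = B / 2 ^ (j + 1) ∧ A / 2 ^ j < B / 2 ^ j := by
  classical
  have hex : ∃ k : ℕ, A / 2 ^ k = B / 2 ^ k := ⟨J, hJ⟩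
  have hk1 : 1 ≤ Nat.find hex := by
    by_contra hcon
    have h0 : Nat.find hex = 0 := by omega
    have h1 := Nat.find_spec hex
    rw [h0] at h1
    norm_num at h1
    omega
  have hkJ : Nat.find hex ≤ J := Nat.find_min' hex hJ
  refine ⟨Nat.find hex - 1, by omega, ?_, ?_⟩
  · rw [Nat.sub_add_cancel hk1]
    exact Nat.find_spec hex
  · have h2 := Nat.find_min hex (m := Nat.find hex - 1) (by omega)
    have h3 : A / 2 ^ (Nat.find hex - 1) ≤ B / 2 ^ (Nat.find hex - 1) :=
      Int.ediv_le_ediv (by positivity) hAB.le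
    exact lt_of_le_of_ne h3 h2

theorem thm (h1 : G_COMB) (h2 : G_THIRD) : G_BOX := by
  classical
  intro d J τ Λ N1 N2 T g hg hN1 hN2 hΛ X Y
  obtain ⟨s, hs⟩ := exists_third (J + 1 + d)
  -- the shifts
  set sh : Finset (Fin d) → Fin d → ℤ := fun e i => if i ∈ e then s else 0 with hsh
  have hnet := h1 d τ Λ N1 N2 T g (Fs d J) hg hN1 hN2 hΛ
  have key : ∀ e : Finset (Fin d), ∃ (hL hU : (Fin d → ℤ) → Finset (Fin d → ℤ))
    (H : Finset ((Fin d → ℤ) × (Fin d → ℤ))),
    (∀ a, (hL a).card ≤ N1) ∧ (∀ b, (hU b).card ≤ N1 * (2 ^ (T.card + 1) * (Λ + 1))) ∧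
    H.card ≤ (2 ^ T.card * N2 * (2 ^ τ + 1) ^ (2 * (d - T.card))) *
      (X.image (fun a => a + sh e)).card ∧
    ∀ a ∈ X.image (fun a => a + sh e), ∀ b ∈ Y.image (fun a => a + sh e), RF (Fs d J) a b →
      ∃ v ∈ hL a, ∃ w ∈ hU b, (v, w) ∈ H ∧ ∀ i, a i ≤ v i ∧ v i ≤ w i ∧ w i ≤ b i :=
    fun e => hnet _ _
  choose hL hU H cL cU cH hmain using key
  have hcard : (Finset.univ : Finset (Finset (Fin d))).card = 2 ^ d := by
    rw [Finset.card_univ, Fintype.card_finset, Fintype.card_fin]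
  refine ⟨fun a => Finset.univ.biUnion fun e => (hL e (a + sh e)).image fun v => v - sh e,
    fun b => Finset.univ.biUnion fun e => (hU e (b + sh e)).image fun v => v - sh e,
    Finset.univ.biUnion fun e => (H e).image fun p => (p.1 - sh e, p.2 - sh e), ?_, ?_, ?_, ?_⟩
  · intro a
    refine (Finset.card_biUnion_le_card_mul _ _ N1 fun e _ => ?_).trans (by rw [hcard])
    exact Finset.card_image_le.trans (cL e _)
  · intro b
    refine (Finset.card_biUnion_le_card_mul _ _ (N1 * (2 ^ (T.card + 1) * (Λ + 1)))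
      fun e _ => ?_).trans (by rw [hcard])
    exact Finset.card_image_le.trans (cU e _)
  · refine (Finset.card_biUnion_le_card_mul _ _
      ((2 ^ T.card * N2 * (2 ^ τ + 1) ^ (2 * (d - T.card))) * X.card) fun e _ => ?_).trans
      (by rw [hcard, ← mul_assoc])
    refine Finset.card_image_le.trans ((cH e).trans ?_)
    exact Nat.mul_le_mul_left _ Finset.card_image_le
  · intro a ha b hb hab
    obtain ⟨hlt, hsum⟩ := hab
    have hΔ : ∀ i, 1 ≤ b i - a i := fun i => by have := hlt i; omega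
    choose Jf hJ1 hJ2 hJ3 using fun i => exists_pow (b i - a i) (hΔ i)
    -- the size of `Jf`
    have hle : ∀ i, 4 * (b i - a i) ≤ 2 ^ J * d := by
      intro i
      refine le_trans ?_ hsum
      have : b i - a i ≤ ∑ k, (b k - a k) :=
        Finset.single_le_sum (f := fun k => b k - a k) (fun k _ => by have := hΔ k; omega)
          (Finset.mem_univ i)
      omega
    have hJm : ∀ i, Jf i ≤ 2 * (J + 1 + d) := by
      intro i
      have e1 : (2 : ℤ) ^ (Jf i - 1) ≤ 2 ^ J * d := (hJ3 i).trans (hle i)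
      have e2 : (2 : ℕ) ^ (Jf i - 1) ≤ 2 ^ J * d := by exact_mod_cast e1
      have e3 : 2 ^ J * d < 2 ^ (J + d) := by
        rw [pow_add]
        exact Nat.mul_lt_mul_of_pos_left Nat.lt_two_pow_self (by positivity)
      have e4 := (Nat.pow_lt_pow_iff_right (a := 2) (by norm_num)).1 (lt_of_le_of_lt e2 e3)
      omega
    -- the shift
    set e : Finset (Fin d) := Finset.univ.filter fun i => ¬ (a i / 2 ^ Jf i = b i / 2 ^ Jf i)
      with he
    have heq : ∀ i, (a i + sh e i) / 2 ^ Jf i = (b i + sh e i) / 2 ^ Jf i := by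
      intro i
      rcases h2 (J + 1 + d) (Jf i) s (a i) (b i) hs (hJm i) (hlt i).le (hJ2 i) with h3 | h3
      · have hi : i ∉ e := by
          rw [he, Finset.mem_filter]
          exact fun h => h.2 h3
        simp only [hsh, if_neg hi, add_zero]
        exact h3
      · by_cases hi : i ∈ e
        · simp only [hsh, if_pos hi]
          exact h3
        · have h4 : a i / 2 ^ Jf i = b i / 2 ^ Jf i := by
            by_contra hcon
            exact hi (by rw [he, Finset.mem_filter]; exact ⟨Finset.mem_univ _, hcon⟩)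
          simp only [hsh, if_neg hi, add_zero]
          exact h4
    choose j hj1 hj2 hj3 using fun i => exists_scale (a i + sh e i) (b i + sh e i)
      (by have := hlt i; omega) (Jf i) (heq i)
    have hj4 : ∀ i, (2 : ℤ) ^ (j i) ≤ 4 * (b i - a i) := by
      intro i
      refine le_trans ?_ (hJ3 i)
      exact pow_le_pow_right₀ (by norm_num) (by have := hj1 i; omega)
    have hj5 : ∑ i, (2 : ℤ) ^ (j i) ≤ 2 ^ J * d := by
      refine le_trans ?_ hsum
      rw [Finset.mul_sum]
      exact Finset.sum_le_sum fun i _ => hj4 i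
    have hj6 : ∑ i, 2 ^ (j i) ≤ 2 ^ J * d := by exact_mod_cast hj5
    have hjF : j ∈ Fs d J := by
      rw [Fs, Finset.mem_filter, Fintype.mem_piFinset]
      refine ⟨fun i => ?_, hj6⟩
      rw [Finset.mem_range]
      have e1 : j i < 2 ^ j i := Nat.lt_two_pow_self
      have e2 : 2 ^ j i ≤ ∑ k, 2 ^ (j k) :=
        Finset.single_le_sum (f := fun k => 2 ^ (j k)) (fun k _ => Nat.zero_le _)
          (Finset.mem_univ i)
      omega
    obtain ⟨v, hv, w, hw, hvw, hi⟩ := hmain e (a + sh e) (Finset.mem_image_of_mem _ ha)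
      (b + sh e) (Finset.mem_image_of_mem _ hb) ⟨j, hjF, fun i => ⟨hj2 i, hj3 i⟩⟩
    refine ⟨v - sh e, ?_, w - sh e, ?_, ?_, ?_⟩
    · rw [Finset.mem_biUnion]
      exact ⟨e, Finset.mem_univ _, Finset.mem_image_of_mem _ hv⟩
    · rw [Finset.mem_biUnion]
      exact ⟨e, Finset.mem_univ _, Finset.mem_image_of_mem _ hw⟩
    · rw [Finset.mem_biUnion]
      exact ⟨e, Finset.mem_univ _, Finset.mem_image.2 ⟨(v, w), hvw, rfl⟩⟩
    · intro i
      have h5 := hi i
      simp only [Pi.add_apply, Pi.sub_apply] at h5 ⊢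
      omega

end Pool.Agent.Helper38.UQ.PkBOX
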